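import Pool.Agent.U554.TU.App

/-!
# The Tate conjecture for arbitrary varieties and the cubic hypersurfaces `T(x, y, z) = 1`

Let `k` be a field (for instance finitely generated over its prime field), `ℓ` a prime number different
from its characteristic, `G_k` its Galois group. The data `O b m X`, for the separated schemes `X` of
finite type over `k`, stand for the cycle class maps (regulators)

  `c : CH_b(X, m) ⊗ ℚ_ℓ → H_{m + 2 b}(X̄, ℚ_ℓ(b))`

from Bloch's higher Chow groups (cycles of dimension `b + m` on `X × Δ^m`) to the `ℓ`-adic étale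
(Borel-Moore) homology, with the action of `G_k` on the target; `m = 0` is the cycle class map
`c_b` of the problem. `IsCycleTheory` lists the known properties which are used.

For a trilinear form `T` in three blocks of `a₁`, `a₂`, `a₃` variables let `Y_T` be the smooth affine
hypersurface `T(x, y, z) = 1` of dimension `d = a₁ + a₂ + a₃ - 1`; `O (d - j) 1 (hypS T)` is the map
`CH^j(Y_T, 1) ⊗ ℚ_ℓ → H^{2 j - 1}(Ȳ_T, ℚ_ℓ(j))`.
-/

set_option autoImplicit false

open CategoryTheory AlgebraicGeometry MvPolynomial Pool.Agent.Y116.UV Pool.Agent.U554.TU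

universe w

namespace Pool.Agent.Results.MP_40dc3c_ag.CubicHypersurfaces

/-- The map `c` is surjective onto the elements of `B` fixed by all operators. -/
def OntoInvariants {K G : Type} [CommRing K] (X : Reg.{w} K G) : Prop :=
  ∀ x : X.B, (∀ g, X.act g x = x) → ∃ a : X.A, X.c a = x

/-- The known properties of the cycle class maps: the properties `IsTheory` (long exact sequences,
homotopy invariance, ...; see `Pool.Agent.U554.TU.Reg`), homotopy invariance for arbitrary affine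
bundles, and for the affine space `𝔸^r` and `b < r`: `CH_b(𝔸^r) = 0` and
`H_{2 b}(𝔸^r, ℚ_ℓ(b)) = H_{2 b + 1}(𝔸^r, ℚ_ℓ(b)) = 0`. -/
structure IsCycleTheory {k : Type} [Field k] {K G : Type} [CommRing K]
    (O : ℤ → ℤ → Sch k → Reg.{w} K G) : Prop extends IsTheory O where
  torsor : BundleInvariant O
  zero : ∀ (r : ℕ) (b : ℤ), b < r → (O b 0 (aff k (MvPolynomial (Fin r) k))).Triv
  one : ∀ (r : ℕ) (b : ℤ), b < r → Subsingleton (O b 1 (aff k (MvPolynomial (Fin r) k))).B

lemma inherited {K G : Type} [CommRing K] : Inherited (OntoInvariants (K := K) (G := G)) := by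
  rintro X Y ⟨s, r, h1, h2⟩ hY x hx
  obtain ⟨a, ha⟩ := hY (s.g x) fun g => by rw [← s.equi, hx]
  refine ⟨r.f a, ?_⟩
  rw [← r.comm, ha, h2]

section

variable {k : Type} [Field k] {K G : Type} [CommRing K] {O : ℤ → ℤ → Sch k → Reg.{w} K G}

lemma onto_bdry (hO : IsTheory O) {Z X U : Sch k} (i : Z ⟶ X) (j : U ⟶ X) (hX : FT True X)
    (ht : IsTriple i j) (b m : ℤ) (hA : Subsingleton (O b m X).A)
    (hB : Subsingleton (O b (m + 1) X).B) (hZ : OntoInvariants (O b m Z)) :
    OntoInvariants (O b (m + 1) U) := by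
  obtain ⟨α, β, δ, e1, e2, e3⟩ := hO.les i j hX ht b
  intro x hx
  obtain ⟨z, hz⟩ := hZ ((δ m).g x) fun g => by rw [← (δ m).equi, hx g]
  obtain ⟨y, hy⟩ := ((e3 m).1 z).mp (Subsingleton.elim _ _)
  have h4 : (δ m).g (x - (O b (m + 1) U).c y) = 0 := by
    rw [map_sub, (δ m).comm, hy, hz, sub_self]
  obtain ⟨v, hv⟩ := ((e2 m).2 _).mp h4
  refine ⟨y, ?_⟩
  rw [Subsingleton.elim v 0, map_zero] at hv
  exact (sub_eq_zero.mp hv.symm).symm

lemma onto_open (hO : IsCycleTheory O) {a₁ a₂ a₃ : ℕ} (T : Fin a₁ → Fin a₂ → Fin a₃ → k) (b : ℤ)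
    (hb : b < (a₂ + a₃ : ℕ))
    (h : ∀ (A : Type) [CommRing A] [Algebra k A] [Algebra.FiniteType k A] (b : ℤ),
      OntoInvariants (O b 0 (aff k A))) :
    OntoInvariants (O b 1 (opn (aff k (MvPolynomial (Fin a₂ ⊕ Fin a₃) k))
      (neOpen k fun i => bil (Fin a₂) (Fin a₃) (T i)))) := by
  have hB := hO.toIsTheory
  let f : Fin a₁ → MvPolynomial (Fin a₂ ⊕ Fin a₃) k := fun i => bil (Fin a₂) (Fin a₃) (T i)
  have e : MvPolynomial (Fin a₂ ⊕ Fin a₃) k ≃ₐ[k] MvPolynomial (Fin (a₂ + a₃)) k :=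
    renameEquiv k finSumFinEquiv
  have h0 : (O b 0 (aff k (MvPolynomial (Fin a₂ ⊕ Fin a₃) k))).Triv :=
    (hB.alg e b 0).factor.triv (hO.zero _ b hb)
  have h1 : Subsingleton (O b (0 + 1) (aff k (MvPolynomial (Fin a₂ ⊕ Fin a₃) k))).B := by
    rw [zero_add]
    obtain ⟨u, -, hu⟩ := hB.alg e b 1
    have := hO.one _ b hb
    exact hu.1.subsingleton
  have h2 := onto_bdry hB _ _ (ft_aff True) (triple_ne f) b 0 h0.1 h1 (h _ b)
  rwa [zero_add] at h2

lemma onto_hyp (hO : IsCycleTheory O) {a₁ a₂ a₃ : ℕ} (T : Fin a₁ → Fin a₂ → Fin a₃ → k) (j : ℕ)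
    (hj : 1 ≤ j)
    (h : ∀ (A : Type) [CommRing A] [Algebra k A] [Algebra.FiniteType k A] (b : ℤ),
      OntoInvariants (O b 0 (aff k A))) :
    OntoInvariants (O (a₁ + a₂ + a₃ - 1 - j) 1 (hypS T)) := by
  have h1 := onto_open hO T (a₂ + a₃ - j) (by push_cast; omega) h
  have h2 := (inherited (K := K) (G := G)).iff (hyp_bundle hO.toIsTheory T (a₂ + a₃ - j) 1)
  have h3 : (a₂ + a₃ - j + a₁ - 1 : ℤ) = a₁ + a₂ + a₃ - 1 - j := by ring
  rw [h3] at h2
  exact h2.mp h1

end

/-- **The Tate conjecture and the cubic hypersurfaces `T(x, y, z) = 1`.** Let `k` be a field, `ℓ` a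
prime number, `G_k` the Galois group of `k`, and let `O b m X` have the known properties of the cycle
class maps `CH_b(X, m) ⊗ ℚ_ℓ → H_{m + 2 b}(X̄, ℚ_ℓ(b))` for the separated schemes `X` of finite type
over `k`. The following assertions are equivalent:
* for all separated schemes `X` of finite type over `k` which have an affine bundle with affine total
  space (all quasi-projective and all smooth `X`) the cycle class maps
  `CH_b(X) ⊗ ℚ_ℓ → H_{2 b}(X̄, ℚ_ℓ(b))^G_k` are surjective for all `b`;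
* the same for all affine `X`;
* for all trilinear forms `T` over `k` and all `j ≥ 1` the maps
  `CH^j(Y_T, 1) ⊗ ℚ_ℓ → H^{2 j - 1}(Ȳ_T, ℚ_ℓ(j))^G_k` are surjective.
If `k` is a prime field, then the hypersurfaces `∑_{(i, j, k) ∈ H} x_i y_j z_k = 1`, for all finite
sets `H` of triples, are sufficient in the last assertion. -/
theorem result (k : Type) [Field k] (ℓ : ℕ) [Fact ℓ.Prime]
    (O : ℤ → ℤ → Sch k → Reg.{w} ℚ_[ℓ] (Field.absoluteGaloisGroup k)) (hO : IsCycleTheory O) :
    List.TFAE [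
      ∀ X : Sch k, FT True X → HasAffineBundle X → ∀ b : ℤ, OntoInvariants (O b 0 X),
      ∀ (A : Type) [CommRing A] [Algebra k A] [Algebra.FiniteType k A] (b : ℤ),
        OntoInvariants (O b 0 (aff k A)),
      ∀ (a₁ a₂ a₃ : ℕ) (T : Fin a₁ → Fin a₂ → Fin a₃ → k) (j : ℕ), 1 ≤ j →
        OntoInvariants (O (a₁ + a₂ + a₃ - 1 - j) 1 (hypS T))] ∧
    ((∀ x : k, ∃ d n : ℤ, (d : k) ≠ 0 ∧ (n : k) = d * x) →
      ((∀ X : Sch k, FT True X → HasAffineBundle X → ∀ b : ℤ, OntoInvariants (O b 0 X)) ↔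
      ∀ (a₁ a₂ a₃ : ℕ) (H : Finset (Fin a₁ × Fin a₂ × Fin a₃)) (j : ℕ), 1 ≤ j →
        OntoInvariants (O (a₁ + a₂ + a₃ - 1 - j) 1 (tripS k H)))) := by
  have hT := hO.toIsTheory
  refine ⟨?_, ?_⟩
  · tfae_have 1 → 2 := by
      intro h A _ _ _ b
      exact h _ (ft_aff True) (has_aff A) b
    tfae_have 2 → 3 := fun h a₁ a₂ a₃ T j hj => onto_hyp hO T j hj h
    tfae_have 3 → 1 := by
      intro h X hX hX' b
      refine bundle_of_affine hO.torsor inherited 0 ?_ X hX hX' b
      intro A _ _ _ b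
      exact affine_of_hyp hT inherited (S := Set.univ) trivial trivial presents_univ 0
        (fun a₁ a₂ a₃ T _ j hj => h a₁ a₂ a₃ T j hj) A b
    tfae_finish
  · intro hk
    constructor
    · intro h a₁ a₂ a₃ H j hj
      obtain ⟨T, -, hH⟩ := trip_hyp (R := k) H
      rw [← hH]
      exact onto_hyp hO T j hj fun A _ _ _ b => h _ (ft_aff True) (has_aff A) b
    · intro h X hX hX' b
      refine bundle_of_affine hO.torsor inherited 0 ?_ X hX hX' b
      intro A _ _ _ b
      refine affine_of_hyp hT inherited (S := {0, 1}) (Or.inl rfl) (Or.inr rfl)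
        (Pool.Agent.Q193.LT.presents_frac fun x => ?_) 0 (fun a₁ a₂ a₃ T hT j hj => ?_) A b
      · obtain ⟨d, n, hd, hn⟩ := hk x
        exact ⟨d, n, hd.isUnit, hn⟩
      · obtain ⟨H, hH⟩ := hyp_zero_one T hT
        rw [hH]
        exact h a₁ a₂ a₃ H j hj

end Pool.Agent.Results.MP_40dc3c_ag.CubicHypersurfaces
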