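import Pool.Agent.U926.FM.Gra
import Pool.Agent.N876.FL.Crit

/-!
# Tate classes in the Borel-Moore homology of products of cyclic coverings and singular varieties

Let `k` be any finitely generated field (of any characteristic) with absolute Galois group `Γ` and
cyclotomic character `χ`, and let `V_1, …, V_r` be smooth projective varieties over `k`, of any dimensions
`n_i ≥ 1`, which are models of cyclic coverings

  `w ^ N_i = ∏ l_{i,k} (x) ^ a_{i,k}`

of the projective spaces, branched along hyperplanes `l_{i,k} = 0`, with exponents prime to `N_i`. Let `Z` be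
**any variety over `k` of dimension at most `λ`: not necessarily smooth, proper, reduced or irreducible**.

Let `κ` be the residue field, with `q = c ^ f` elements, `N_i ∣ q - 1`, of a closed point of a model of `k`
over which the `V_i` have good reduction and the homology of `Z` is unramified, and let `σ` be the arithmetic
Frobenius element, `χ(σ) = q`. The Borel-Moore homology `H_m(Z)` with coefficients in `ℚ_ℓ` (extended to `ℂ`)
is dual to the cohomology with compact supports. So, by the integrality theorem of Deligne, the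
eigenvalues `β` of `σ` on `H_m(Z)` are algebraic integers, and `q ^ (m - λ)` divides them if `m > λ`
(`IsOfDimension`). **Nothing is used on their absolute values**: the homology of `Z` is mixed, and purity is
used neither for `Z` nor for the `V_i`. The homology of `V_i` is the sum of a space with a basis of
classes of cycles `k` over `k`, of dimension `dim k` (the invariants of the covering group), and of a space
`W_i` in degree `n_i` without invariants; the trace formula of Grothendieck and Lefschetz holds for
the compositions of the Frobenius with the elements of the covering group (`IsCyclicCovering`).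

A Tate class of dimension `j` over a finite extension `k'` with the group `Γ'` is a class
`b ∈ H_{2 j}` with `γ b = χ(γ) ^ j b` for `γ ∈ Γ'`: an element of `H_{2 j}(Z, ℚ_ℓ(j)) ^ Γ'` in the notation of
the problem. The homology of `V × Z`, `V = V_1 × ⋯ × V_r`, and its classes of degree `m` (`IsOfDegreeX`) are
given by the formula of Künneth.

For an integer `j` let `weight V j` be the sum of the fractional parts of `j a_k / N`, replaced by its
mean over the orbit `j, c j, …, c ^ (f - 1) j`. The condition `IsSmall N λ` says: for every nonempty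
set `I` of indices and all `j_i` not divisible by `N_i` (`i ∈ I`) there is a `u` prime to `N` with
`∑_{i ∈ I} weight V_i (u j_i) + λ / 2 < ∑_{i ∈ I} (n_i / 2 + 1)`. For example (part 3) it is true if the `N_i`
are different prime numbers, `c ≡ 1` modulo all `N_i`, `∑_k a_{i,k} = N_i` and `n_i > λ` for all `i`.

**Theorem.** Assume `IsSmall N λ`, where `N` is a common multiple of the `N_i`, and let `Z` be any variety of
dimension at most `λ`.

* The Tate classes of dimension `w` on `V × Z`, over all finite extensions of `k`, are **exactly** the linear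
  combinations of the products `e_1 × ⋯ × e_r × b` of the classes of cycles on the `V_i` and of Tate
  classes `b` of dimension `w - ∑ dim e_i` on `Z`.
* Hence, over every finite extension of `k`, **the maps `c_j` are surjective for `V × Z` and all `j` if and only
  if they are surjective for `Z` and all `j`** (of the spaces spanned by the classes of cycles it is used only
  that exterior products and push-forwards along the projection `V × Z → Z` of cycles are cycles).

For instance Q1 is true for `V × Z` if it is true for `Z`: for all linear, toric, cellular or rational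
varieties with any singularities, all open subvarieties of such varieties, all curves with any singularities,
and so on, of dimension smaller than all `n_i`.

The starting result `MP_950c68_ag.ProductsOfSmallLevel` is on smooth projective varieties `Z`: there the weight
of an eigenvalue determines the degree and complex conjugation exchanges the slopes. This is false for
singular and for open varieties. Here the degree is kept by a grading operator with a transcendental
parameter `θ`: if `v` is a Tate class of degree `2 w`, then it is an eigenvector of the Frobenius,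
multiplied by `θ ^ m` on the part of degree `m`, with the eigenvalue `θ ^ (2 w) q ^ w`. The eigenvalues of
this operator on the parts with nontrivial characters are `θ ^ (∑ n_i + 2 e + m) q ^ e β ∏ α_i`. As the `α_i` and `β`
are algebraic, the degrees have to agree, and by the theorem of Stickelberger on Gauss sums there is an
embedding of the algebraic numbers into an algebraic closure of the field of `c`-adic numbers such that
the valuation of `q ^ e β ∏ α_i` is larger than that of `q ^ w`. For function fields the orders of the poles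
of the L-functions of such `V × Z` are in `MP_4776b1_ag.ProductsWithCoverings`.

The trace formula, the decomposition of the homology of the `V_i` and the theorem of Deligne are hypotheses.

helper926 (`Pool/Agent/U926/FM/Gra`); built on the library of the starting files: helper876 (`N876/TC`,
`N876/FL`: slopes of the eigenvalues on cyclic coverings, operators on tensor products) and the estimates of
sums over hyperplane arrangements by Gauss sums (helper528 and helpers 800, 883, 135, 563, 271, 540, 400,
999, 782, 605, 346).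
-/

set_option autoImplicit false

open Finset Polynomial TensorProduct

namespace Pool.Agent.Results.MP_40dc3c_ag.SingularTimesCoverings

/-- A cyclic covering `w ^ N = ∏ l_k (x) ^ a_k` of the projective space of dimension `n`, and a root of
unity `z`. -/
structure Covering (κ : Type) [Field κ] : Type where
  N : ℕ
  n : ℕ
  s : ℕ
  l : Fin s → Fin (n + 1) → κ
  a : Fin s → ℕ
  z : κ

/-- `z` has order `N ≥ 2`, the exponents are prime to `N` and their sum is divisible by `N`. -/
structure Covering.IsAdmissible {κ : Type} [Field κ] (X : Covering κ) : Prop where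
  two_le : 2 ≤ X.N
  root : IsPrimitiveRoot X.z X.N
  coprime : ∀ k, (X.a k).Coprime X.N
  dvd : X.N ∣ ∑ k, X.a k

/-- The value of the form `∏ l_k ^ a_k` at a vector with coordinates in `L`. -/
def Covering.value {κ : Type} [Field κ] (X : Covering κ) (L : Type) [Field L] [Algebra κ L]
    (x : Fin (X.n + 1) → L) : L :=
  ∏ k, (∑ t, algebraMap κ L (X.l k t) * x t) ^ X.a k

/-- The number of vectors over `L` where the form is not zero. -/
noncomputable def Covering.openCount {κ : Type} [Field κ] (X : Covering κ) (L : Type) [Field L]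
    [Algebra κ L] : ℕ :=
  Set.ncard {x : Fin (X.n + 1) → L | X.value L x ≠ 0}

/-- The number of vectors over `L` where the form is not zero and its power with the exponent
`(|L| - 1) / N` is `z ^ i`. -/
noncomputable def Covering.fixCount {κ : Type} [Field κ] (X : Covering κ) (L : Type) [Field L]
    [Fintype L] [Algebra κ L] (i : ℕ) : ℕ :=
  Set.ncard {x : Fin (X.n + 1) → L | X.value L x ≠ 0 ∧
    (X.value L x) ^ ((Fintype.card L - 1) / X.N) = algebraMap κ L X.z ^ i}

/-- `W` is the part without invariants of the homology of degree `n` of a smooth projective model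
of the covering, with the Frobenius `Φ` (which is bijective) and the generator `g` of the covering group.
The trace of `Φ ^ [L : κ] g ^ i` is up to the sign the difference of the number of fixed points over the open
set `∏ l_k ≠ 0` of projective space (`N` points over each point where the form has the power residue
symbol `z ^ i`) and of the number of the points of this open set. -/
structure IsCyclicCovering {κ : Type} [Field κ] (X : Covering κ) {W : Type} [AddCommGroup W]
    [Module ℂ W] (Φ g : Module.End ℂ W) : Prop where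
  commute : Commute Φ g
  order : g ^ X.N = 1
  invariants : ∀ w, g w = w → w = 0
  lefschetz : ∀ (L : Type) [Field L] [Fintype L] [Algebra κ L] (i : ℕ),
    ((Fintype.card L : ℂ) - 1) *
        ((-1) ^ X.n * LinearMap.trace ℂ W (Φ ^ Module.finrank κ L * g ^ i)) =
      (X.N : ℂ) * (X.fixCount L i : ℂ) - (X.openCount L : ℂ)

/-- The mean over `j, c j, …, c ^ (f - 1) j` of the sum of the fractional parts of `j a_k / N`. -/
def Covering.weight {κ : Type} [Field κ] (X : Covering κ) (c f j : ℕ) : ℚ :=
  (∑ k, ∑ t ∈ range f, (((j * X.a k * c ^ t) % X.N : ℕ) : ℚ)) / (f * X.N)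

/-- The condition on the exponents. -/
def IsSmall {κ : Type} [Field κ] {ι : Type} (X : ι → Covering κ) (c f N lam : ℕ) : Prop :=
  ∀ I : Finset ι, I.Nonempty → ∀ j : ι → ℕ, (∀ i ∈ I, ¬ (X i).N ∣ j i) →
    ∃ u : ℕ, u.Coprime N ∧
      ∑ i ∈ I, (X i).weight c f (u * j i) + (lam : ℚ) / 2 < ∑ i ∈ I, (((X i).n : ℚ) / 2 + 1)

/-- The theorem of Deligne for a variety of dimension at most `lam`, whose homology of degree `deg t` is
`B t`: the eigenvalues of the Frobenius on `B t` are algebraic integers, divisible by
`q ^ (deg t - lam)`. -/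
def IsOfDimension (q lam : ℕ) {T : Type} (deg : T → ℕ) {B : T → Type} [∀ t, AddCommGroup (B t)]
    [∀ t, Module ℂ (B t)] (Φ : ∀ t, Module.End ℂ (B t)) : Prop :=
  ∀ t β, (Φ t).HasEigenvalue β → IsIntegral ℤ (β / (q : ℂ) ^ (deg t - lam))

/-- `v` has the degree `m` in the tensor product of graded spaces, where `D i e x` and `D' e y` mean that `x`
and `y` have the degree `e`. -/
def ProductDegree {ι : Type} [Fintype ι] {M : ι → Type} [∀ i, AddCommGroup (M i)]
    [∀ i, Module ℂ (M i)] {U : Type} [AddCommGroup U] [Module ℂ U] (D : ∀ i, ℕ → M i → Prop)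
    (D' : ℕ → U → Prop) (m : ℕ) (v : (⨂[ℂ] i, M i) ⊗[ℂ] U) : Prop :=
  v ∈ Submodule.span ℂ {v | ∃ (x : ∀ i, M i) (e : ι → ℕ) (y : U) (e' : ℕ),
    (∀ i, D i (e i) (x i)) ∧ D' e' y ∧ ∑ i, e i + e' = m ∧ (⨂ₜ[ℂ] i, x i) ⊗ₜ[ℂ] y = v}

/-- The product of linear forms on the factors, as a map from the tensor product to `U`. -/
noncomputable def contraction {ι : Type} [Fintype ι] {M : ι → Type} [∀ i, AddCommGroup (M i)]
    [∀ i, Module ℂ (M i)] {U : Type} [AddCommGroup U] [Module ℂ U] (f : ∀ i, M i →ₗ[ℂ] ℂ) :
    (⨂[ℂ] i, M i) ⊗[ℂ] U →ₗ[ℂ] U :=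
  (TensorProduct.lid ℂ U : ℂ ⊗[ℂ] U →ₗ[ℂ] U) ∘ₗ
    TensorProduct.map (PiTensorProduct.lift ((MultilinearMap.mkPiAlgebra ℂ ι ℂ).compLinearMap f))
      LinearMap.id

section product

variable {Γ : Type} [Group Γ] {ι : Type} [Fintype ι] {K W : ι → Type}
  [∀ i, AddCommGroup (W i)] [∀ i, Module ℂ (W i)] {T : Type} {B : T → Type}
  [∀ t, AddCommGroup (B t)] [∀ t, Module ℂ (B t)]

/-- The homology of the product of the `V_i` and of `Z` (Künneth formula), with complex
coefficients. -/
abbrev ProductHomology {ι : Type} (K W : ι → Type) [∀ i, AddCommGroup (W i)]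
    [∀ i, Module ℂ (W i)] {T : Type} (B : T → Type) [∀ t, AddCommGroup (B t)]
    [∀ t, Module ℂ (B t)] : Type :=
  (⨂[ℂ] i, ((K i → ℂ) × W i)) ⊗[ℂ] (∀ t, B t)

/-- The action of `γ` on the homology of `V_i`: on the classes of cycles of dimension `dim k` by the power
of `χ` with this exponent, and on `W` by `ρ`. -/
noncomputable def homologyAction {K W : Type} [AddCommGroup W] [Module ℂ W] (χ : Γ →* ℂˣ)
    (dim : K → ℕ) (ρ : Γ →* Module.End ℂ W) (γ : Γ) : Module.End ℂ ((K → ℂ) × W) :=
  LinearMap.prodMap (LinearMap.pi fun k => (((χ γ : ℂˣ) : ℂ) ^ dim k) • LinearMap.proj k) (ρ γ)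

/-- The action of `γ` on the homology of `Z`, which is the sum of the `B t`. -/
noncomputable def actionZ (ρZ : ∀ t, Γ →* Module.End ℂ (B t)) (γ : Γ) : Module.End ℂ (∀ t, B t) :=
  LinearMap.pi fun t => ρZ t γ ∘ₗ LinearMap.proj t

/-- The action of `γ` on the homology of the product. -/
noncomputable def productAction (χ : Γ →* ℂˣ) (dim : ∀ i, K i → ℕ)
    (ρ : ∀ i, Γ →* Module.End ℂ (W i)) (ρZ : ∀ t, Γ →* Module.End ℂ (B t)) (γ : Γ) :
    Module.End ℂ (ProductHomology K W B) :=
  TensorProduct.map
    (PiTensorProduct.map fun i => homologyAction χ (dim i) (ρ i) γ) (actionZ ρZ γ)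

/-- The class `x` in the homology of `V_i` is of degree `e`: classes of cycles of dimension `dim k` are of
degree `2 dim k`, and `W` is of degree `n`. -/
def IsOfDegree {K W : Type} [AddCommGroup W] (dim : K → ℕ) (n e : ℕ) (x : (K → ℂ) × W) : Prop :=
  (∀ k, x.1 k ≠ 0 → 2 * dim k = e) ∧ (x.2 ≠ 0 → n = e)

/-- The class `b` in the homology of `Z` is of degree `e`. -/
def IsOfDegreeZ (deg : T → ℕ) (e : ℕ) (b : ∀ t, B t) : Prop := ∀ t, deg t ≠ e → b t = 0

/-- The class `v` in the homology of the product is of degree `m`. -/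
def IsOfDegreeX (dim : ∀ i, K i → ℕ) (n : ι → ℕ) (deg : T → ℕ) (m : ℕ)
    (v : ProductHomology K W B) : Prop :=
  ProductDegree (fun i => IsOfDegree (dim i) (n i)) (IsOfDegreeZ deg) m v

/-- The product of the classes of the cycles with the indices `k i` and of the class `b` on `Z`. -/
noncomputable def product [∀ i, DecidableEq (K i)] (k : ∀ i, K i) (b : ∀ t, B t) :
    ProductHomology K W B :=
  (⨂ₜ[ℂ] i, ((Pi.single (k i) 1, 0) : (K i → ℂ) × W i)) ⊗ₜ[ℂ] b

/-- The component of a class on the product at the product of the classes with the indices `k i`. For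
the class of a point this is the push-forward along the projection `V × Z → Z`. -/
noncomputable def component (k : ∀ i, K i) (v : ProductHomology K W B) : ∀ t, B t :=
  contraction (fun i => LinearMap.proj (k i) ∘ₗ LinearMap.fst ℂ (K i → ℂ) (W i)) v

end product

/-- `v` is a Tate class of dimension `j` over the extension with the group `Γ'`: it is of degree `2 j`, and the
elements `γ` of `Γ'` act on `v` by `χ(γ) ^ j`. -/
def IsTateClass {Γ : Type} [Group Γ] (χ : Γ →* ℂˣ) (Γ' : Subgroup Γ) {V : Type} [AddCommGroup V]
    [Module ℂ V] (degree : ℕ → V → Prop) (action : Γ → Module.End ℂ V) (j : ℕ) (v : V) : Prop :=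
  degree (2 * j) v ∧ ∀ γ ∈ Γ', action γ v = ((χ γ : ℂˣ) : ℂ) ^ j • v

/-- `v` is a linear combination of products of classes of cycles, with the index `k` and the dimension
`dim k`, and of classes `b` such that `P (w - dim k) b` holds. -/
def IsCombination {J U V : Type} [AddCommGroup V] [Module ℂ V] (prod : J → U → V) (dim : J → ℕ)
    (P : ℕ → U → Prop) (w : ℕ) (v : V) : Prop :=
  v ∈ Submodule.span ℂ {v | ∃ (k : J) (b : U), dim k ≤ w ∧ P (w - dim k) b ∧ prod k b = v}

/-- For the spaces `AZ j`, `AX w` spanned by the classes of cycles on `Z` and on the product (of which it is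
used only that they are compatible with exterior products and with the push-forward to `Z`): the classes
with the property `TX` are in `AX` if and only if the classes with the property `TZ` are in `AZ`. -/
def IsInherited {J U V : Type} [AddCommGroup U] [Module ℂ U] [AddCommGroup V] [Module ℂ V]
    (prod : J → U → V) (push : J → V → U) (dim : J → ℕ) (TZ : ℕ → U → Prop) (TX : ℕ → V → Prop) :
    Prop :=
  ∀ (AZ : ℕ → Submodule ℂ U) (AX : ℕ → Submodule ℂ V) (point : J), dim point = 0 →
    (∀ w k b, dim k ≤ w → b ∈ AZ (w - dim k) → prod k b ∈ AX w) →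
    (∀ w z, z ∈ AX w → push point z ∈ AZ w) →
    ((∀ w v, TX w v → v ∈ AX w) ↔ ∀ j b, TZ j b → b ∈ AZ j)

/-- The theorem on Tate classes for products with all varieties of dimension at most `lam`, for all data
over `κ`. -/
def TateTheorem {κ : Type} [Field κ] [Fintype κ] {ι : Type} [Fintype ι] [DecidableEq ι]
    (X : ι → Covering κ) (lam : ℕ) : Prop :=
  ∀ {Γ : Type} [Group Γ] (χ : Γ →* ℂˣ) (σ : Γ), ((χ σ : ℂˣ) : ℂ) = (Fintype.card κ : ℂ) →
  ∀ {K W : ι → Type} [∀ i, Fintype (K i)] [∀ i, DecidableEq (K i)] [∀ i, AddCommGroup (W i)]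
    [∀ i, Module ℂ (W i)] [∀ i, FiniteDimensional ℂ (W i)] (dim : ∀ i, K i → ℕ)
    (ρ : ∀ i, Γ →* Module.End ℂ (W i)) (g : ∀ i, Module.End ℂ (W i)),
    (∀ i, IsCyclicCovering (X i) (ρ i σ) (g i)) →
  ∀ {T : Type} [Fintype T] [DecidableEq T] (deg : T → ℕ) {B : T → Type} [∀ t, AddCommGroup (B t)]
    [∀ t, Module ℂ (B t)] [∀ t, FiniteDimensional ℂ (B t)] (ρZ : ∀ t, Γ →* Module.End ℂ (B t)),
    IsOfDimension (Fintype.card κ) lam deg (fun t => ρZ t σ) →
  ∀ (Γ' : Subgroup Γ) [Γ'.FiniteIndex],
    (∀ (w : ℕ) (v : ProductHomology K W B),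
      IsTateClass χ Γ' (IsOfDegreeX dim (fun i => (X i).n) deg) (productAction χ dim ρ ρZ) w v ↔
        IsCombination product (fun k : ∀ i, K i => ∑ i, dim i (k i))
          (IsTateClass χ Γ' (IsOfDegreeZ deg) (actionZ ρZ)) w v) ∧
    IsInherited (J := ∀ i, K i) (U := ∀ t, B t) (V := ProductHomology K W B) product component
      (fun k => ∑ i, dim i (k i)) (IsTateClass χ Γ' (IsOfDegreeZ deg) (actionZ ρZ))
      (IsTateClass χ Γ' (IsOfDegreeX dim (fun i => (X i).n) deg) (productAction χ dim ρ ρZ))

section proofs

open Pool.Agent.N876.TC (MM tot ev cmp co)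
open Pool.Agent.U926.FM (gr pm)

variable {Γ : Type} [Group Γ] {ι : Type} [Fintype ι] {K W : ι → Type}
  [∀ i, AddCommGroup (W i)] [∀ i, Module ℂ (W i)] {T : Type} {B : T → Type}
  [∀ t, AddCommGroup (B t)] [∀ t, Module ℂ (B t)]

theorem gr_degree {dim : ∀ i, K i → ℕ} {n : ι → ℕ} {deg : T → ℕ} {m : ℕ}
    {v : ProductHomology K W B} (hv : IsOfDegreeX dim n deg m v) (θ : ℂ) :
    gr dim n deg θ v = θ ^ m • v := by
  unfold IsOfDegreeX ProductDegree at hv
  induction hv using Submodule.span_induction with
  | mem v h =>
    obtain ⟨x, e, y, e', hx, hy, hm, rfl⟩ := h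
    have h1 : gr dim n deg θ ((⨂ₜ[ℂ] i, x i) ⊗ₜ[ℂ] y) =
        (⨂ₜ[ℂ] i, tot (θ ^ 2) (dim i) ((θ ^ n i) • (1 : Module.End ℂ (W i))) (x i)) ⊗ₜ[ℂ]
          (pm (fun t => (θ ^ deg t) • (1 : Module.End ℂ (B t))) y) := by
      unfold gr MM
      rw [TensorProduct.map_tmul, PiTensorProduct.map_tprod]
    have h2 : ∀ i, tot (θ ^ 2) (dim i) ((θ ^ n i) • (1 : Module.End ℂ (W i))) (x i) =
        θ ^ e i • x i := by
      intro i
      obtain ⟨hx1, hx2⟩ := hx i
      refine Prod.ext ?_ ?_
      · funext k
        show (θ ^ 2) ^ dim i k * (x i).1 k = θ ^ e i * (x i).1 k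
        by_cases h : (x i).1 k = 0
        · rw [h, mul_zero, mul_zero]
        · rw [← pow_mul, hx1 k h]
      · show (θ ^ n i) • (x i).2 = θ ^ e i • (x i).2
        by_cases h : (x i).2 = 0
        · rw [h, smul_zero, smul_zero]
        · rw [hx2 h]
    have h3 : pm (fun t => (θ ^ deg t) • (1 : Module.End ℂ (B t))) y = θ ^ e' • y := by
      funext t
      show (θ ^ deg t) • y t = θ ^ e' • y t
      by_cases h : deg t = e'
      · rw [h]
      · rw [hy t h, smul_zero, smul_zero]
    rw [h1, h3]
    simp only [h2]
    rw [MultilinearMap.map_smul_univ, TensorProduct.smul_tmul_smul, prod_pow_eq_pow_sum, ← pow_add,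
      hm]
  | zero => rw [map_zero, smul_zero]
  | add x y _ _ hx hy => rw [map_add, hx, hy, smul_add]
  | smul r x _ hx => rw [map_smul, hx, smul_comm]

theorem product_degree [∀ i, DecidableEq (K i)]
    {dim : ∀ i, K i → ℕ} {n : ι → ℕ} {deg : T → ℕ} {w : ℕ} {k : ∀ i, K i} {b : ∀ t, B t}
    (hk : ∑ i, dim i (k i) ≤ w) (hb : IsOfDegreeZ deg (2 * (w - ∑ i, dim i (k i))) b) :
    IsOfDegreeX dim n deg (2 * w) (product k b : ProductHomology K W B) := by
  refine Submodule.subset_span ⟨fun i => (Pi.single (k i) 1, 0), fun i => 2 * dim i (k i), b,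
    2 * (w - ∑ i, dim i (k i)), fun i => ⟨fun k' hk' => ?_, fun h => absurd rfl h⟩, hb, ?_, rfl⟩
  · by_cases h : k' = k i
    · rw [h]
    · exact absurd (Pi.single_eq_of_ne h _) hk'
  · rw [← mul_sum]
    omega

theorem component_eq (k : ∀ i, K i) (v : ProductHomology K W B) : component k v = cmp k v := rfl

theorem component_product [∀ i, DecidableEq (K i)] (k : ∀ i, K i) (b : ∀ t, B t) :
    component k (product k b : ProductHomology K W B) = b := by
  rw [component_eq]
  unfold product
  rw [Pool.Agent.N876.TC.cmp_tmul, Pool.Agent.N876.TC.co_tprod]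
  have h1 : ∏ i, ((Pi.single (k i) 1, 0) : (K i → ℂ) × W i).1 (k i) = 1 :=
    prod_eq_one fun i _ => Pi.single_eq_same _ _
  rw [h1, one_smul]

end proofs

/-- **Tate classes in the Borel-Moore homology of products of cyclic coverings branched along hyperplanes
with arbitrary varieties of small dimension.** -/
theorem result (c : ℕ) [Fact c.Prime] (κ : Type) [Field κ] [Fintype κ] [CharP κ c] (f : ℕ)
    (hf : Fintype.card κ = c ^ f) {ι : Type} [Fintype ι] [DecidableEq ι] (X : ι → Covering κ)
    (hX : ∀ i, (X i).IsAdmissible) (lam : ℕ) :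
    -- 1. the theorem on Tate classes
    (∀ N : ℕ, 0 < N → (∀ i, (X i).N ∣ N) → IsSmall X c f N lam → TateTheorem X lam) ∧
    -- 2. pairwise coprime degrees: the proper divisors are sufficient
    ((∀ i i', i ≠ i' → ((X i).N).Coprime (X i').N) →
      (∀ i g, g ∣ (X i).N → g < (X i).N →
        (X i).weight c f g + (lam : ℚ) / 2 < ((X i).n : ℚ) / 2 + 1) →
      IsSmall X c f (∏ i, (X i).N) lam) ∧
    -- 3. different prime degrees, `c ≡ 1`
    ((∀ i, ((X i).N).Prime) → (∀ i i', i ≠ i' → (X i).N ≠ (X i').N) →
      (∀ i, c % (X i).N = 1) → (∀ i, ∑ k, (X i).a k = (X i).N) → (∀ i, lam < (X i).n) →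
      IsSmall X c f (∏ i, (X i).N) lam) := by
  have hf0 : 0 < f := by
    rcases Nat.eq_zero_or_pos f with h | h
    · rw [h, pow_zero] at hf
      have := Fintype.one_lt_card (α := κ)
      omega
    · exact h
  have hN0 : ∀ i, 0 < (X i).N := fun i => by have := (hX i).two_le; omega
  have h2 : ((∀ i i', i ≠ i' → ((X i).N).Coprime (X i').N) →
      (∀ i g, g ∣ (X i).N → g < (X i).N →
        (X i).weight c f g + (lam : ℚ) / 2 < ((X i).n : ℚ) / 2 + 1) →
      IsSmall X c f (∏ i, (X i).N) lam) := by
    intro hco hsm I hI j hj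
    have h1 : ∀ i, ∃ u : ℕ, u.Coprime (X i).N ∧ u * j i ≡ (j i).gcd (X i).N [MOD (X i).N] :=
      fun i => Pool.Agent.N876.FL.exists_gcd_unit (hN0 i) (j i)
    choose u hu hu2 using h1
    obtain ⟨v, hv1, hv2⟩ := Pool.Agent.N876.TC.exists_crt (d := fun i => (X i).N) hN0 hco u hu
    refine ⟨v, hv1, ?_⟩
    have h2 : ∑ i ∈ I, (X i).weight c f (v * j i) + ∑ i ∈ I, (lam : ℚ) / 2 <
        ∑ i ∈ I, (((X i).n : ℚ) / 2 + 1) := by
      rw [← sum_add_distrib]
      refine Finset.sum_lt_sum_of_nonempty hI fun i hi => ?_
      refine lt_of_le_of_lt (le_of_eq ?_) (hsm i ((j i).gcd (X i).N) (Nat.gcd_dvd_right _ _)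
        (Pool.Agent.N876.FL.gcd_proper (hN0 i) (hj i hi)))
      congr 1
      unfold Covering.weight
      congr 1
      refine sum_congr rfl fun k _ => sum_congr rfl fun t _ => ?_
      have h2 : v * j i * (X i).a k * c ^ t ≡ (j i).gcd (X i).N * (X i).a k * c ^ t
          [MOD (X i).N] :=
        ((((hv2 i).mul_right _).trans (hu2 i)).mul_right _).mul_right _
      rw [h2]
    refine lt_of_le_of_lt ?_ h2
    rw [sum_const, nsmul_eq_mul]
    have h3 : (1 : ℚ) ≤ I.card := by exact_mod_cast hI.card_pos
    have h4 : (0 : ℚ) ≤ (lam : ℚ) / 2 := by positivity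
    nlinarith
  have h3 : ∀ i, c % (X i).N = 1 → ∀ j,
      (X i).weight c f j = ((∑ k, (j * (X i).a k) % (X i).N : ℕ) : ℚ) / (X i).N := by
    intro i hc j
    have hN := (hX i).two_le
    have hN' : ((X i).N : ℚ) ≠ 0 := by exact_mod_cast (by omega : (X i).N ≠ 0)
    have hf' : (f : ℚ) ≠ 0 := by exact_mod_cast hf0.ne'
    unfold Covering.weight
    have h1 : ∀ k, ∑ t ∈ range f, (((j * (X i).a k * c ^ t) % (X i).N : ℕ) : ℚ) =
        f * (((j * (X i).a k) % (X i).N : ℕ) : ℚ) := by
      intro k
      have h2 : ∀ t ∈ range f, (((j * (X i).a k * c ^ t) % (X i).N : ℕ) : ℚ) =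
          (((j * (X i).a k) % (X i).N : ℕ) : ℚ) := by
        intro t _
        have h3 : c ^ t ≡ 1 [MOD (X i).N] := by
          have h4 : c ≡ 1 [MOD (X i).N] := by
            show c % (X i).N = 1 % (X i).N
            rw [hc, Nat.mod_eq_of_lt (by omega)]
          simpa using h4.pow t
        have h5 : j * (X i).a k * c ^ t ≡ j * (X i).a k [MOD (X i).N] := by
          have h6 := h3.mul_left (j * (X i).a k)
          rwa [mul_one] at h6
        rw [h5]
      rw [sum_congr rfl h2, sum_const, card_range, nsmul_eq_mul]
    rw [sum_congr rfl fun k _ => h1 k, ← mul_sum]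
    push_cast
    rw [mul_div_mul_left _ _ hf']
  refine ⟨?_, h2, ?_⟩
  · intro N hN hdN hsmall Γ _ χ σ hσ K W _ _ _ _ _ dim ρ g hcov T _ _ deg B _ _ _ ρZ hdim
    have hq0 : Fintype.card κ ≠ 0 := Fintype.card_ne_zero
    have hqc : (Fintype.card κ : ℂ) ≠ 0 := by exact_mod_cast hq0
    have hsmall' : ∀ I : Finset ι, I.Nonempty → Pool.Agent.N876.UV.SmallI c f N lam
        (fun i => (X i).N) (fun i => (X i).n) (fun i => (X i).s) (fun i => (X i).a) I := by
      intro I hI j hj
      obtain ⟨u, hu, hlt⟩ := hsmall I hI j hj
      refine ⟨u, hu, Pool.Agent.N876.UV.weight_conv' hf0 hN hdN I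
        (fun i => ∑ k, ∑ t ∈ range f, (u * j i * (X i).a k * c ^ t) % (X i).N) ?_⟩
      refine lt_of_le_of_lt (le_of_eq ?_) hlt
      congr 1
      refine sum_congr rfl fun i _ => ?_
      unfold Covering.weight
      push_cast
      rfl
    have hcov' : ∀ i, Pool.Agent.N876.TC.IsCov (X i).N (X i).l (X i).a (X i).z (ρ i σ) (g i) :=
      fun i => ⟨(hcov i).commute, (hcov i).order, (hcov i).invariants,
        fun L _ _ _ t => (hcov i).lefschetz L t⟩
    have hα0 : ∀ i, ¬ (ρ i σ).HasEigenvalue 0 := by
      intro i h
      obtain ⟨x, hx⟩ := h.exists_hasEigenvector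
      have h1 := Module.End.mem_eigenspace_iff.1 hx.1
      rw [zero_smul] at h1
      have h2 : (ρ i (σ⁻¹ * σ)) x = 0 := by
        rw [map_mul, Module.End.mul_apply, h1, map_zero]
      rw [inv_mul_cancel, map_one] at h2
      exact hx.2 h2
    have hres : Pool.Agent.U926.FM.NoResG (Fintype.card κ) (fun i => (X i).n) deg
        (fun i => ρ i σ) (fun t => ρZ t σ) :=
      Pool.Agent.U926.FM.nores_mixed hN (fun i => (hX i).two_le) hdN κ hf
        (fun i => (hX i).root) (fun i => (X i).l) (fun i => (X i).a)
        (fun i => (hX i).coprime) hcov' hα0 hsmall' hdim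
    have hαalg : ∀ i α, (ρ i σ).HasEigenvalue α → IsAlgebraic ℚ α := by
      intro i α hα
      have hne : α ≠ 0 := by
        rintro rfl
        exact hα0 i hα
      obtain ⟨hx, -⟩ := Pool.Agent.N876.FL.exists_small' hN (fun i => (hX i).two_le) hdN κ hf
        (fun i => (hX i).root) (fun i => (X i).l) (fun i => (X i).a)
        (fun i => (hX i).coprime) hcov' (hsmall' {i} (singleton_nonempty i)) (α := fun _ => α)
        (by intro i' hi'; rw [mem_singleton] at hi'; subst hi'; exact hα)
        (fun _ _ => hne)
      exact mem_algebraicClosure_iff.1 (hx i (mem_singleton_self i))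
    have hβalg : ∀ t β, (ρZ t σ).HasEigenvalue β → IsAlgebraic ℚ β := by
      intro t β hβ
      have h1 := (hdim t β hβ).tower_top (A := ℚ)
      have h2 : β = β / (Fintype.card κ : ℂ) ^ (deg t - lam) *
          (Fintype.card κ : ℂ) ^ (deg t - lam) := by
        rw [div_mul_cancel₀ _ (pow_ne_zero _ hqc)]
      rw [h2]
      exact h1.isAlgebraic.mul ((isAlgebraic_natCast _).pow _)
    intro Γ' _
    have hmain : ∀ (w : ℕ) (v : ProductHomology K W B),
        IsTateClass χ Γ' (IsOfDegreeX dim (fun i => (X i).n) deg) (productAction χ dim ρ ρZ) w v ↔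
          IsCombination product (fun k : ∀ i, K i => ∑ i, dim i (k i))
            (IsTateClass χ Γ' (IsOfDegreeZ deg) (actionZ ρZ)) w v := by
      intro w v
      constructor
      · rintro ⟨hv1, hv2⟩
        obtain ⟨h1, h2, h3⟩ := Pool.Agent.U926.FM.gal_graded hq0 χ σ hσ ρ ρZ hres hαalg hβalg dim
          Γ' w (fun θ => gr_degree hv1 θ) hv2
        unfold IsCombination
        rw [h1]
        refine Submodule.sum_mem _ fun k _ => ?_
        rcases le_or_gt (∑ i, dim i (k i)) w with hk | hk
        · refine Submodule.subset_span ⟨k, _, hk, ⟨fun t ht => h2 k t ?_, ?_⟩, rfl⟩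
          · change deg t ≠ 2 * (w - ∑ i, dim i (k i)) at ht
            omega
          intro γ hγ
          funext t
          exact h3 k hk γ hγ t
        · have h4 : Pool.Agent.N876.TC.cmp k v = 0 := by
            funext t
            exact h2 k t (by omega)
          rw [h4, TensorProduct.tmul_zero]
          exact Submodule.zero_mem _
      · intro hv
        unfold IsCombination at hv
        induction hv using Submodule.span_induction with
        | mem t ht =>
          obtain ⟨k, b, h1, ⟨h2, h3⟩, rfl⟩ := ht
          refine ⟨product_degree h1 h2, fun γ hγ => ?_⟩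
          refine (Pool.Agent.N876.TC.MM_ev ((χ γ : ℂˣ) : ℂ) dim (fun i => ρ i γ)
            (actionZ ρZ γ) k b).trans ?_
          rw [h3 γ hγ, TensorProduct.tmul_smul, smul_smul, ← pow_add, Nat.add_sub_cancel' h1]
          rfl
        | zero => exact ⟨Submodule.zero_mem _, fun γ _ => by rw [map_zero, smul_zero]⟩
        | add x y _ _ hx hy =>
          exact ⟨Submodule.add_mem _ hx.1 hy.1, fun γ hγ => by
            rw [map_add, hx.2 γ hγ, hy.2 γ hγ, smul_add]⟩
        | smul r x _ hx =>
          exact ⟨Submodule.smul_mem _ r hx.1, fun γ hγ => by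
            rw [map_smul, hx.2 γ hγ, smul_comm]⟩
    refine ⟨hmain, ?_⟩
    intro AZ AX point hpoint hprod hpush
    constructor
    · intro h j b hb
      have h1 := h j (product point b) ((hmain j _).2 (Submodule.subset_span
        ⟨point, b, by rw [hpoint]; exact Nat.zero_le _, by rw [hpoint, Nat.sub_zero]; exact hb,
          rfl⟩))
      have h2 := hpush j _ h1
      rwa [component_product] at h2
    · intro h w v hv
      have h1 := (hmain w v).1 hv
      refine (Submodule.span_le.2 ?_) h1
      rintro _ ⟨k, b, h2, h3, rfl⟩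
      exact hprod w k b h2 (h _ b h3)
  · intro hp hne hc hsum hn
    refine h2 (fun i i' hii => (Nat.coprime_primes (hp i) (hp i')).2 (hne i i' hii)) ?_
    intro i g hg hlt
    have hg1 : g = 1 := by
      rcases (Nat.dvd_prime (hp i)).1 hg with h | h
      · exact h
      · omega
    rw [h3 i (hc i), hg1]
    have h4 : (∑ k, (1 * (X i).a k) % (X i).N) ≤ (X i).N := by
      refine le_trans (sum_le_sum fun k _ => Nat.mod_le _ _) ?_
      simp only [one_mul]
      exact (hsum i).le
    have hN' : (0 : ℚ) < (X i).N := by exact_mod_cast hN0 i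
    have h5 : (((∑ k, (1 * (X i).a k) % (X i).N : ℕ) : ℚ)) / (X i).N ≤ 1 := by
      rw [div_le_one hN']
      exact_mod_cast h4
    have h6 : (lam : ℚ) < (X i).n := by exact_mod_cast hn i
    linarith

end Pool.Agent.Results.MP_40dc3c_ag.SingularTimesCoverings
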