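import Pool.Agent.U173.BM.Rank

/-!
# The cokernels of the class maps in the Borel-Moore homology of products

Let `k` be a finitely generated field of any characteristic and `U` **any variety over `k`**, not
necessarily smooth, proper, reduced or irreducible. Let `𝒱` be a class of smooth projective varieties over
`k` which is closed under products, with its Chow groups `C` and `ℓ`-adic cohomology `H` (coefficients
extended to the algebraic closure `K` of `ℚ_ℓ`) and the operation `ρ` of the Galois group `G` (framework of
the starting library `N166/TT`; only formal properties are used, `IsArithmetic`); `G` acts on the classes
of divisors through the character `χ`. For `X` in `𝒱` let `CH X` be the Chow groups (with rational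
coefficients) of the cycles on `X × U` and `HB X` the Borel-Moore homology of `X × U`
(`HomologyData`, with the usual properties `IsHomology`: degrees, classes of cycles, exterior products,
the operations `x ↦ p_* (E · x)` with cycles `E` on smooth projective factors, the operation of `G`, and
the Künneth formula). No Poincaré duality, no resolution of singularities and no purity is used for `U`.

Let `c_n : CH_n(X × U) ⊗ K → H_{2n}(X × U)(n) ^ G` be the class map. Let `d_n(X × U)` be the dimension of
its cokernel (`cokernelDim`): **the defect of the surjectivity**, zero if and only if `c_n` is
surjective; and let `b_n(X × U)` be the dimension of its image (`imageDim`). For `X` in `𝒱` let `r_i(X)` be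
the dimension of the span of the classes of `i`-dimensional cycles on `X` in the cohomology of `X`, and
`R_X = ∑ r_i(X) t ^ i` (`rankSeries`).

A smooth projective variety `X` is *good* for a set `P` of places with slope fields `L v`
(`IsGoodSpace`) if `H(X)` is the direct sum of the span of the classes of cycles and a subspace `T` stable
under `G` such that at the places `v` in `P` the Frobenius eigenvalues on `T` are Weil numbers with slope
field `L v` (the automorphisms of `ℚ̄` over `L v` do not change the `p`-adic absolute values of the
conjugates of the eigenvalues), and no nonzero subspace of `T` stable under `G` is supersingular at all
places of `P`. Examples are all powers of abelian varieties with monodromy group `GSp_{2g}` and K3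
surfaces, `P = {v}` a place where the reduction is not supersingular.

**Theorem.** Let `X i` (`i` in the list `l`) be smooth projective varieties, each of them good for a set
`P i` of places, with slope fields `L i v` which contain totally real fields `E i v`. Let `Y j`
(`j` in the list `l'`) and `Z` be arbitrary smooth projective varieties. Suppose that for each `i` in `l`
and `v` in `P i` the homology of `Z × U` has at `v` a slope field which contains `E i v` and meets `L i v`
in a totally real field; and that the later `X j` and the `Y j` are pure at `v`, have **each of them** such a
slope field at `v`, and `L i v` is normal over `E i v` if there is a later `X j` or a `Y j`. Let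
`W = ∏ Y j × Z` and `V = ∏ X i × W`. Then

  `∑ b_n(V × U) t ^ n = ∏ R_{X i} · ∑ b_n(W × U) t ^ n`   and
  `∑ d_n(V × U) t ^ n = ∏ R_{X i} · ∑ d_n(W × U) t ^ n`.

So the defects of the surjectivity for `V × U` are given by those for `W × U` by an exact formula, in which
only the numbers of cycles on the factors `X i` enter: `d_n(X × U) = ∑ r_i(X) d_{n - i}(U)` if `W` is a
point. For example a Tate class on `X × U` of dimension `n` which is not algebraic comes from one on `U` of
a dimension between `n - dim X` and `n`, and one such class on `U`, of dimension `m`, gives at least
`r_i(X)` independent ones of dimension `m + i` on `X × U` for all `i`; the number of the independent ones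
on `X_1 × ⋯ × X_r × U` is at least the number of the products of cycles on the `X_i` (`R_X(1)` is the total
number of independent cycles on `X`).

The proof. The component of a Tate class on `X i × V' × U` in `T ⊗ HB(V')` is semi-invariant; the
smallest subspace of `T` which is needed to write it is stable under `G`, and the eigenvalues of `σ` on it
are inverse, up to a power of `p`, to eigenvalues on `HB(V')` (`U173/GS/Lin`). By the results on numbers of
`U173/OP/Star` they are supersingular; so this subspace is zero. The intersection form is not degenerate
on the classes of cycles on `X i`, so there are dual systems `D_a`, `E_a` of cycles, and
`w ↦ (p_* (E_a · w))_a` is an isomorphism from the space of the Tate classes of dimension `n` on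
`X i × V' × U` to the sum of the spaces of Tate classes of dimension `n - dim D_a` on `V' × U`, and
also from the span of the classes of cycles to the sum of the spans of the classes of cycles.

Relation to other hand-ins: same hypotheses as in `MP_4776b1_ag.AnyVarietyTimesGood`, also mine, which is
on the conjectures (a) and (b) of Jannsen, that is, on the vanishing of these defects and on injectivity;
the exact formula for the defects is new here. The hand-in `SingularTimesCoverings` of helper926 is on
products with cyclic coverings branched along hyperplanes, by the theorem of Stickelberger.
-/

set_option autoImplicit false

open CategoryTheory AlgebraicGeometry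

namespace Pool.Agent.Results.MP_40dc3c_ag.SurjectivityDefect

open Pool.Agent.H914 Pool.Agent.H914.VarClass Pool.Agent.W492.BB Pool.Agent.N166.TT
  Pool.Agent.U231.FR.Base
open Pool.Agent.U173.OP (Place IsArithmetic)
open Pool.Agent.U173.BM

/-- **The dimensions of the images and the cokernels of the class maps for the products of arbitrary
varieties with varieties without supersingular parts.** -/
theorem result {k : Type} [Field k] {𝒱 : VarClass k} (C : TheoryData.{0, 0, 0} 𝒱 ℚ) [IsChow C]
    {K : Type} [Field K] [IsAlgClosed K] [CharZero K] (H : WeilTheoryData.{0, 0, 0} C K) [IsWeil H]
    {G : Type} (ρ : Operations H G) (h : IsArithmetic ρ) (T : HomologyData H G)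
    (hT : IsHomology ρ T) {I I' : Type} (P : I → Set (Place G))
    (E L : I → Place G → IntermediateField ℚ (AlgebraicClosure ℚ)) (X : I → 𝒱.Obj)
    (Y : I' → 𝒱.Obj) (Z : 𝒱.Obj) (l : List I) (l' : List I')
    (hsys : IsSystem ρ T P E L X Y Z l l') :
    imageSeries T (productOf X (productOf Y Z l') l) =
        (l.map fun i => rankSeries H (X i)).prod * imageSeries T (productOf Y Z l') ∧
      cokernelSeries ρ T (productOf X (productOf Y Z l') l) =
        (l.map fun i => rankSeries H (X i)).prod * cokernelSeries ρ T (productOf Y Z l') :=
  series_main h hT l hsys

end Pool.Agent.Results.MP_40dc3c_ag.SurjectivityDefect
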