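import Pool.Agent.U738.BN.Cyc

/-!
# The Tate conjecture for singular varieties: equations with two terms and equations with three terms

Let `k` be a field, `E` a field (`ℚ_ℓ`), and let `c j X : A j X → B j X` be linear maps between vector
spaces over `E` for the separated schemes `X` of finite type over `k` and `j ≥ 0`.  The structure `IsCyc`
lists the properties which are used.  They are known for the cycle maps of the problem,

* `A j X = CH_j(X) ⊗ ℚ_ℓ`, `B j X = H_{2j}(X̄, ℚ_ℓ(j))^{G_k}` if `k` is a finitely generated field of
  characteristic zero (exactness of the localization sequence of Chow groups; Jannsen: exactness of the
  sequences of the invariants by weights and by the semisimplicity of the category of motives for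
  absolute Hodge cycles), and
* `A j X = CH_j(X) ⊗ ℚ_ℓ`, `B j X` the generalised eigenspace of the Frobenius for the eigenvalue `1` on
  `H_{2j}(X̄, ℚ_ℓ(j))` if `k` is a finite field (weights; surjectivity is then the strong form of the
  Tate conjecture).

(Surjectivity for schemes of dimension at most one is elementary: `H_0` of a connected curve is `0` or
generated by the degree, and `H_2(1)` is generated by the irreducible components.)

We compare, for a number `t`: the maps `c j Y` are surjective for all schemes `Y` given by equations with
at most `t` terms whose coefficients are arbitrary elements of a `k`-algebra of finite type and of
dimension at most one (families over curves, for example arbitrary equations with at most `t` terms over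
`k`); the same for systems of bilinear equations over `k` with at most `t` terms and coefficients in
`T ∪ {1}`, where `T` generates the field `k`; and the maps `c j X` are surjective for all `X` (Q1 for the
field `k`).  The first two statements are true for `t ≤ 2`, and they are equivalent to the third one for
`t ≥ 3`.
-/

set_option autoImplicit false

open CategoryTheory AlgebraicGeometry MvPolynomial Pool.Agent.Y116.UV Pool.Agent.U738.BN

namespace Pool.Agent.Results.MP_40dc3c_ag.TwoAndThreeTerms

universe w

/-- **Theorem.** Let `c j X : A j X → B j X` be a family of cycle maps over the field `k` with the
properties `IsCyc`, and let `T` be a set which generates `k` as a field.  For every `t ≥ 0` the following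
statements are equivalent:
(1) the maps `c j Y` are surjective for all schemes `Y` which are given by any set of equations with at
most `t` terms whose coefficients are in a `k`-algebra of finite type of dimension at most one, and all
`j`;
(2) the maps `c j Y` are surjective for every scheme `Y` over `k` given by a system of bilinear equations
with at most `t` terms in every equation and with all coefficients in `T ∪ {1}`, and every `j`;
(3) `t ≤ 2`, or the maps `c j X` are surjective for every separated scheme `X` of finite type over `k`
and every `j` (Q1 for the field `k`).
In particular the maps are surjective for all systems of equations with two terms over curves, and Q1 for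
the field `k` is equivalent to its restriction to systems of bilinear equations with three terms. -/
theorem result {k E : Type} [Field k] [Field E] (D : CycData.{w} k E) (hD : IsCyc D) (T : Set k)
    (hT : Subfield.closure T = ⊤) (t : ℕ) :
    List.TFAE [
      ForTerms 1 t fun Y : Sch k => ∀ j, Function.Surjective (D.c j Y),
      ForSystems T t fun Y : Sch k => ∀ j, Function.Surjective (D.c j Y),
      t ≤ 2 ∨ ∀ X : Sch k, FT True X → ∀ j, Function.Surjective (D.c j X)] :=
  dichotomy_field hT (clo_cyc hD) (posD_cyc hD) zero_le_one t

end Pool.Agent.Results.MP_40dc3c_ag.TwoAndThreeTerms
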